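import Pool.Agent.ConnDens.Lower

/-!
# Connected set density: `M(H₃) = M(G₃) = 5/6`

Problem MP_a5cbd6_co, question Q1. Every connected graph of minimum degree at least three has
connected set density less than `5/6`, and chains of diamonds (necklaces) show that this is
asymptotically sharp for cubic graphs. Hence the two asymptotic maximum densities are equal.
-/

set_option autoImplicit false

namespace Pool.Agent.Results.MP_a5cbd6_co.MinDegreeThree

open Finset Filter
open scoped Classical

/-- The connected sets of a finite graph: the (nonempty) vertex sets with connected induced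
subgraph. (`SimpleGraph.Connected` includes that there is at least one vertex.) -/
noncomputable def connectedSets {V : Type} [Fintype V] (G : SimpleGraph V) : Finset (Finset V) :=
  univ.filter (fun S => (G.induce (S : Set V)).Connected)

/-- The average size of a connected set. -/
noncomputable def averageSize {V : Type} [Fintype V] (G : SimpleGraph V) : ℝ :=
  (∑ S ∈ connectedSets G, (S.card : ℝ)) / ((connectedSets G).card : ℝ)

/-- The connected set density: the average size divided by the number of vertices. -/
noncomputable def density {V : Type} [Fintype V] (G : SimpleGraph V) : ℝ :=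
  averageSize G / (Fintype.card V : ℝ)

/-- A class of finite graphs, given by its members with vertex set `Fin n`. -/
abbrev GraphClass := ∀ n : ℕ, SimpleGraph (Fin n) → Prop

/-- connected cubic graphs -/
def G3 : GraphClass := fun _ G => G.Connected ∧ ∀ v, (G.neighborSet v).ncard = 3

/-- connected graphs of minimum degree at least three -/
def H3 : GraphClass := fun _ G => G.Connected ∧ ∀ v, 3 ≤ (G.neighborSet v).ncard

/-- The densities of the `n`-vertex graphs of a class (a finite set). -/
def densities (C : GraphClass) (n : ℕ) : Set ℝ :=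
  {x | ∃ G : SimpleGraph (Fin n), C n G ∧ density G = x}

/-- The maximal density of an `n`-vertex graph of a class. -/
noncomputable def maxDensity (C : GraphClass) (n : ℕ) : ℝ := sSup (densities C n)

/-- The asymptotic maximum density: the upper limit of `maxDensity C n` over those `n` for which
the class has a graph with `n` vertices. -/
noncomputable def M (C : GraphClass) : ℝ :=
  limsup (maxDensity C) (atTop ⊓ 𝓟 {n | (densities C n).Nonempty})

open Pool.Agent.ConnDens

theorem connectedSets_eq {V : Type} [Fintype V] (G : SimpleGraph V) : connectedSets G = CS G := by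
  unfold connectedSets CS
  apply filter_congr
  intro S _
  exact (conn_iff G S).symm

theorem connectedSets_pos {V : Type} [Fintype V] (G : SimpleGraph V) (hV : 0 < Fintype.card V) :
    0 < (connectedSets G).card := by
  obtain ⟨v⟩ := Fintype.card_pos_iff.1 hV
  rw [card_pos, connectedSets_eq]
  refine ⟨{v}, mem_CS.2 ⟨singleton_nonempty v, ?_⟩⟩
  intro T hT hne hT'
  exfalso
  rcases subset_singleton_iff.1 hT with h | h
  · rw [h] at hne; exact not_nonempty_empty hne
  · exact hT' h

theorem density_nonneg {V : Type} [Fintype V] (G : SimpleGraph V) : 0 ≤ density G := by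
  unfold density averageSize
  positivity

theorem density_lt {V : Type} [Fintype V] (G : SimpleGraph V) (hV : 0 < Fintype.card V)
    (hdeg : ∀ v, 3 ≤ (G.neighborSet v).ncard) : density G < 5 / 6 := by
  have h1 : ∀ v : V, 3 ≤ (univ.filter (fun w => G.Adj v w)).card := by
    intro v
    have h2 : ((univ.filter (fun w => G.Adj v w) : Finset V) : Set V) = G.neighborSet v := by
      ext w
      simp [SimpleGraph.mem_neighborSet]
    have h3 := hdeg v
    rw [← h2, Set.ncard_coe_finset] at h3
    exact h3
  have : Nonempty V := Fintype.card_pos_iff.1 hV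
  have h4 := average h1
  have h5 : 6 * ∑ S ∈ CS G, (S.card : ℝ) < 5 * (Fintype.card V : ℝ) * (CS G).card := by
    exact_mod_cast h4
  have h6 : (0 : ℝ) < (CS G).card := by
    have := connectedSets_pos G hV
    rw [connectedSets_eq] at this
    exact_mod_cast this
  have h7 : (0 : ℝ) < Fintype.card V := by exact_mod_cast hV
  unfold density averageSize
  rw [connectedSets_eq, div_div, div_lt_iff₀ (by positivity)]
  linarith

/-- isomorphic induced subgraphs -/
theorem induce_iso {V W : Type} {G : SimpleGraph V} {H : SimpleGraph W} (φ : G ≃g H)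
    (S : Finset V) : (G.induce (S : Set V)).Connected ↔
      (H.induce ((S.map φ.toEquiv.toEmbedding : Finset W) : Set W)).Connected := by
  have hS : ((S.map φ.toEquiv.toEmbedding : Finset W) : Set W) = φ.toEquiv '' (S : Set V) := by
    rw [coe_map]; rfl
  rw [hS]
  let ψ : G.induce (S : Set V) ≃g H.induce (φ.toEquiv '' (S : Set V)) :=
    { toEquiv := φ.toEquiv.image (S : Set V)
      map_rel_iff' := by
        intro a b
        exact φ.map_rel_iff' }
  exact ψ.connected_iff

theorem density_iso {V W : Type} [Fintype V] [Fintype W] {G : SimpleGraph V} {H : SimpleGraph W}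
    (φ : G ≃g H) : density G = density H := by
  have hmap : connectedSets H = (connectedSets G).map
      ⟨fun S => S.map φ.toEquiv.toEmbedding, fun S T h => Finset.map_injective _ h⟩ := by
    ext T
    unfold connectedSets
    rw [mem_filter, Finset.mem_map]
    constructor
    · rintro ⟨_, hT⟩
      have h1 : (T.map φ.symm.toEquiv.toEmbedding).map φ.toEquiv.toEmbedding = T := by
        ext w
        simp only [Finset.mem_map, Equiv.coe_toEmbedding]
        constructor
        · rintro ⟨v, ⟨u, hu, rfl⟩, rfl⟩
          have : φ.toEquiv (φ.symm.toEquiv u) = u := φ.toEquiv.apply_symm_apply u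
          rw [this]; exact hu
        · intro hw
          exact ⟨_, ⟨w, hw, rfl⟩, φ.toEquiv.apply_symm_apply w⟩
      refine ⟨T.map φ.symm.toEquiv.toEmbedding, ?_, h1⟩
      rw [mem_filter]
      refine ⟨mem_univ _, ?_⟩
      rw [induce_iso φ, h1]
      exact hT
    · rintro ⟨S, hS, rfl⟩
      rw [mem_filter] at hS
      exact ⟨mem_univ _, (induce_iso φ S).1 hS.2⟩
  have hcard : Fintype.card V = Fintype.card W := Fintype.card_congr φ.toEquiv
  have hsum : ∑ S ∈ connectedSets H, (S.card : ℝ) = ∑ S ∈ connectedSets G, (S.card : ℝ) := by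
    rw [hmap, sum_map]
    apply sum_congr rfl
    intro S _
    show ((S.map φ.toEquiv.toEmbedding).card : ℝ) = S.card
    rw [card_map]
  have hnum : (connectedSets H).card = (connectedSets G).card := by rw [hmap, card_map]
  unfold density averageSize
  rw [hsum, hnum, hcard]

/-- the chain of `k` diamonds on `Fin (4k+10)` -/
theorem exists_chain {k : ℕ} (hk : 1 ≤ k) : ∃ G : SimpleGraph (Fin (4 * k + 10)),
    G3 _ G ∧ density G = density (NG k) := by
  have hcard : Fintype.card (NV k) = 4 * k + 10 := by
    simp only [Fintype.card_sum, Fintype.card_fin, Fintype.card_prod]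
    ring
  let e : NV k ≃ Fin (4 * k + 10) := Fintype.equivFinOfCardEq hcard
  let G : SimpleGraph (Fin (4 * k + 10)) := (NG k).map e.toEmbedding
  let φ : NG k ≃g G := SimpleGraph.Iso.map e (NG k)
  refine ⟨G, ⟨?_, ?_⟩, (density_iso φ).symm⟩
  · rw [← φ.connected_iff]
    have h1 := (conn_iff (NG k) univ).1 (NG_conn hk)
    rw [coe_univ] at h1
    exact (SimpleGraph.induceUnivIso (NG k)).connected_iff.1 h1
  · intro v
    have h1 : G.neighborSet v = e '' ((NG k).neighborSet (e.symm v)) := by
      ext w
      rw [SimpleGraph.mem_neighborSet]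
      constructor
      · intro h
        refine ⟨e.symm w, ?_, e.apply_symm_apply w⟩
        rw [SimpleGraph.mem_neighborSet]
        rw [← φ.map_adj_iff]
        have h2 : φ (e.symm v) = v := e.apply_symm_apply v
        have h3 : φ (e.symm w) = w := e.apply_symm_apply w
        rw [h2, h3]
        exact h
      · rintro ⟨u, hu, rfl⟩
        rw [SimpleGraph.mem_neighborSet, ← φ.map_adj_iff] at hu
        have h2 : φ (e.symm v) = v := e.apply_symm_apply v
        rw [h2] at hu
        exact hu
    rw [h1, Set.ncard_image_of_injective _ e.injective]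
    exact NG_cubic hk _

theorem density_chain {k : ℕ} (hk : 1 ≤ k) :
    5 / 6 - 1659030 / (72 * (k : ℝ) + 180) ≤ density (NG k) := by
  have h1 := lower hk
  have h2 : (0 : ℝ) < (CS (NG k)).card := by
    have := card_CS_ge hk
    have h3 : 0 < 3 ^ k := by positivity
    exact_mod_cast lt_of_lt_of_le h3 this
  have hcard : (Fintype.card (NV k) : ℝ) = 4 * k + 10 := by
    have : Fintype.card (NV k) = 4 * k + 10 := by
      simp only [Fintype.card_sum, Fintype.card_fin, Fintype.card_prod]
      ring
    rw [this]; push_cast; ring
  have hk0 : (0 : ℝ) ≤ k := Nat.cast_nonneg _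
  unfold density averageSize
  rw [connectedSets_eq, hcard, div_div, le_div_iff₀ (by positivity)]
  have h4 : (5 / 6 - 1659030 / (72 * (k : ℝ) + 180)) * ((CS (NG k)).card * (4 * (k : ℝ) + 10)) =
      (10 * ((k : ℝ) - 27648) * (CS (NG k)).card) / 3 := by
    have : (72 * (k : ℝ) + 180) ≠ 0 := by positivity
    field_simp
    ring
  rw [h4]
  linarith

theorem M_eq {C : GraphClass} (h1 : ∀ n G, C n G → density G < 5 / 6)
    (h2 : ∀ n G, G3 n G → C n G) : M C = 5 / 6 := by
  set F : Filter ℕ := atTop ⊓ 𝓟 {n | (densities C n).Nonempty} with hF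
  have hbdd : ∀ n, BddAbove (densities C n) := by
    intro n
    refine ⟨5 / 6, ?_⟩
    rintro x ⟨G, hG, rfl⟩
    exact (h1 n G hG).le
  have hup : ∀ n, maxDensity C n ≤ 5 / 6 := by
    intro n
    unfold maxDensity
    apply Real.sSup_le
    · rintro x ⟨G, hG, rfl⟩
      exact (h1 n G hG).le
    · norm_num
  have hlow : ∀ n, 0 ≤ maxDensity C n := by
    intro n
    unfold maxDensity
    apply Real.sSup_nonneg
    rintro x ⟨G, hG, rfl⟩
    exact density_nonneg G
  have hfreq : ∀ ε : ℝ, 0 < ε → ∃ᶠ n in F, 5 / 6 - ε ≤ maxDensity C n := by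
    intro ε hε
    rw [hF, frequently_inf_principal, frequently_atTop]
    intro a
    obtain ⟨K, hK⟩ := exists_nat_gt (1659030 / ε)
    set k := a + K + 1 with hk
    have hk1 : 1 ≤ k := by omega
    obtain ⟨G, hG, hd⟩ := exists_chain hk1
    have hmem : density G ∈ densities C (4 * k + 10) := ⟨G, h2 _ G hG, rfl⟩
    refine ⟨4 * k + 10, by omega, ⟨_, hmem⟩, ?_⟩
    have h3 : density G ≤ maxDensity C (4 * k + 10) := le_csSup (hbdd _) hmem
    refine le_trans ?_ h3
    rw [hd]
    refine le_trans ?_ (density_chain hk1)
    have h4 : (1659030 : ℝ) / (72 * (k : ℝ) + 180) ≤ ε := by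
      rw [div_lt_iff₀ hε] at hK
      rw [div_le_iff₀ (by positivity)]
      have h5 : (K : ℝ) ≤ k := by
        rw [hk]; push_cast
        have : (0 : ℝ) ≤ a := Nat.cast_nonneg _
        linarith
      nlinarith [mul_le_mul_of_nonneg_right h5 hε.le, mul_nonneg (Nat.cast_nonneg k : (0 : ℝ) ≤ k) hε.le]
    linarith
  have hne : F.NeBot := by
    by_contra hcon
    rw [not_neBot] at hcon
    have := hfreq 1 one_pos
    rw [hcon] at this
    exact this (by simp)
  have hbu : F.IsBoundedUnder (· ≤ ·) (maxDensity C) := isBoundedUnder_of ⟨5 / 6, hup⟩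
  have hbl : F.IsBoundedUnder (· ≥ ·) (maxDensity C) := isBoundedUnder_of ⟨0, hlow⟩
  apply le_antisymm
  · unfold M
    rw [← hF]
    exact limsup_le_of_le hbl.isCoboundedUnder_le (Eventually.of_forall hup)
  · apply le_of_forall_pos_sub_le
    intro ε hε
    unfold M
    rw [← hF]
    exact le_limsup_of_frequently_le (hfreq ε hε) hbu

/-- Every connected graph of minimum degree at least three has connected set density less than
`5/6`; the asymptotic maximum densities of the connected cubic graphs and of the connected graphs
of minimum degree at least three are both equal to `5/6`. -/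
theorem result : (∀ n G, H3 n G → density G < 5 / 6) ∧ M G3 = 5 / 6 ∧ M H3 = M G3 := by
  have hpos : ∀ (n : ℕ) (G : SimpleGraph (Fin n)), G.Connected → 0 < Fintype.card (Fin n) := by
    intro n G hG
    exact Fintype.card_pos_iff.2 hG.nonempty
  have hH : ∀ n G, H3 n G → density G < 5 / 6 :=
    fun n G hG => density_lt G (hpos n G hG.1) hG.2
  have hG : ∀ n G, G3 n G → density G < 5 / 6 :=
    fun n G hG => density_lt G (hpos n G hG.1) (fun v => (hG.2 v).ge)
  have e1 : M G3 = 5 / 6 := M_eq hG (fun _ _ h => h)
  have e2 : M H3 = 5 / 6 := M_eq hH (fun _ _ h => ⟨h.1, fun v => (h.2 v).ge⟩)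
  exact ⟨hH, e1, e2.trans e1.symm⟩

end Pool.Agent.Results.MP_a5cbd6_co.MinDegreeThree
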